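import Mathlib
import Pool.Agent.helper58.FI.SpecC

/-!
# Row fi:FNC (MP_baa4d7_al): the contribution of one normal chain
-/

set_option autoImplicit false

namespace Pool.Agent.FI

open Pool.Agent.helper58.DC Pool.Agent.DI Pool.Agent.GR Pool.Agent.OB Pool.Agent.DR

open Classical in
/-- double counting -/
theorem FNC_dc {G F : Type} [Finite G] (B : Set F) (hB : B.Finite) (R : G → F → Prop) (Gs : Set G)
    (hR : ∀ η ∈ B, ∀ g, R g η → g ∈ Gs) (s : F → ℕ) :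
    ∑ᶠ η ∈ B, {g : G | R g η}.ncard * s η = ∑ᶠ g ∈ Gs, ∑ᶠ η ∈ {η : F | η ∈ B ∧ R g η}, s η := by
  have := Fintype.ofFinite G
  rw [finsum_mem_eq_finite_toFinset_sum _ hB, finsum_mem_eq_finite_toFinset_sum _ (Set.toFinite Gs)]
  have h1 : ∀ g : G, ∑ᶠ η ∈ {η : F | η ∈ B ∧ R g η}, s η = ∑ η ∈ hB.toFinset, if R g η then s η else 0 := by
    intro g
    have hf : {η : F | η ∈ B ∧ R g η}.Finite := hB.subset fun η h => h.1
    rw [finsum_mem_eq_finite_toFinset_sum _ hf, ← Finset.sum_filter]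
    apply Finset.sum_congr _ fun _ _ => rfl
    ext η
    simp
  rw [Finset.sum_congr rfl fun g _ => h1 g, Finset.sum_comm]
  apply Finset.sum_congr rfl
  intro η hη
  rw [Set.Finite.mem_toFinset] at hη
  have h2 : {g : G | R g η}.ncard = ∑ g ∈ (Set.toFinite Gs).toFinset, if R g η then 1 else 0 := by
    rw [← Finset.card_filter, Set.ncard_eq_toFinset_card _ (Set.toFinite _)]
    congr 1
    ext g
    simp only [Set.Finite.mem_toFinset, Set.mem_ofPred_eq, Finset.mem_filter]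
    exact ⟨fun h => ⟨hR η hη g h, h⟩, fun h => h.2⟩
  rw [h2, Finset.sum_mul]
  apply Finset.sum_congr rfl
  intro g _
  by_cases h : R g η
  · simp [h]
  · simp [h]

/-- The characters of `C_G(P)` over `χ` and those of `C_G(P ^ g)` over `θ`. -/
theorem FNC_bij (hFEQ : FEQ_stmt) (hFSI : FSI_stmt) (p : ℕ) (M : Ideal (integralClosure ℤ ℂ)) (hS : Setup p M)
    (G : Type) [Group G] [Finite G] (D : Subgroup G) (x : G) (θ χ : G → ℂ) (hl : Loc p M D x θ χ) (P : Subgroup G)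
    (g : G) (hg : cjS g P ≤ D) :
    Set.BijOn (cjF g) {η : G → ℂ | η ∈ Blk M χ (cz P) ∧ (cjS g P ≤ D ∧ SB M (cz (cjS g P)) θ (cjF g η))}
      (Bl M (cz (cjS g P)) θ) := by
  have hcz : cz (cjS g P) = cjS g (cz P) := (hFEQ G M g g P P P χ χ χ).2.1.1
  have hinv : ∀ ψ : G → ℂ, cjF g⁻¹ (cjF g ψ) = ψ := by
    intro ψ
    rw [(hFEQ G M g⁻¹ g P P P χ ψ χ).1.2.1, inv_mul_cancel]
    exact (hFEQ G M g⁻¹ g P P P χ ψ χ).1.2.2.2
  have hinv' : ∀ ψ : G → ℂ, cjF g (cjF g⁻¹ ψ) = ψ := by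
    intro ψ
    rw [(hFEQ G M g g⁻¹ P P P χ ψ χ).1.2.1, mul_inv_cancel]
    exact (hFEQ G M g⁻¹ g P P P χ ψ χ).1.2.2.2
  refine ⟨?_, ?_, ?_⟩
  · rintro η ⟨hη, _, hη'⟩
    refine ⟨?_, hη'.symm⟩
    rw [hcz]
    exact (hFEQ G M g g P P (cz P) χ η χ).2.2.2.1.1 hη.1
  · intro η _ η' _ h
    have h1 : cjF g⁻¹ (cjF g η) = cjF g⁻¹ (cjF g η') := congrArg _ h
    rwa [hinv, hinv] at h1
  · rintro ψ ⟨hψ, hψ'⟩
    refine ⟨cjF g⁻¹ ψ, ⟨⟨?_, ?_⟩, hg, ?_⟩, hinv' ψ⟩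
    · apply (hFEQ G M g g P P (cz P) χ (cjF g⁻¹ ψ) χ).2.2.2.1.2
      rw [hinv', ← hcz]
      exact hψ
    · have h1 := ((hFEQ G M g g P P (cz P) χ (cjF g⁻¹ ψ) χ).2.2.2.2.2.1 hl.lo.rt.chi).2
      rw [hinv'] at h1
      rw [← h1]
      have h2 := (hFSI p M hS G (cz (cjS g P)) (cz (cjS g P)) ψ θ).2 hψ.1 (fun y hy => ?_) hψ' χ
      · rw [h2]
        exact hl.lo.rt.ind
      · apply hl.lo.rt.th.1
        intro hy'
        exact hy (Subgroup.centralizer_le hg hy')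
    · rw [hinv']
      exact hψ'.symm

theorem FNC (hFMX : FMX_stmt) (hF12 : F12_stmt) (hFCQ : FCQ_stmt) (hFNG : FNG_stmt) (hFSQ : FSQ_stmt)
    (hFEQ : FEQ_stmt) (hFSI : FSI_stmt) (hIF : IF_stmt) : FNC_stmt := by
  intro p M hS G _ _ D x θ χ hl C hC hne
  obtain ⟨P, hPC, hPne, hPp, hPmax, hPN, hNP, hzN⟩ := hFMX G p C hC hne
  set N := nrm C with hN
  set T := TT M D θ with hT
  have h12 := hF12 p M hS G P N hPp hPN hzN hNP χ hl.lo.rt.chi
    (fun ψ hψ => (hFCQ p M hS G D x θ χ hl P hPp hPne N hzN hNP ψ hψ).1)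
  refine ⟨?_, ?_⟩
  · have hB : (Blk M χ (cz P)).Finite := (hIF G (cz P)).1.subset fun ψ h => h.1
    have hGs : {g : G | ∀ Q ∈ C, cjS g Q ≤ D} = {g : G | cjS g P ≤ D} := by
      ext g
      constructor
      · intro h
        exact h P hPC
      · intro h Q hQ
        exact le_trans (Subgroup.map_mono (hPmax Q hQ)) h
    rw [h12.1, hGs]
    have e1 : Nat.card T * (Nat.card (cz P) * ∑ᶠ ψ ∈ Blk M χ (cz P), ((cz P).relIndex (stF N ψ)) ^ 2) =
        Nat.card (cz D) * ∑ᶠ η ∈ Blk M χ (cz P),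
          {g : G | cjS g P ≤ D ∧ SB M (cz (cjS g P)) θ (cjF g η)}.ncard * ((cz P).relIndex (stF N η)) ^ 2 := by
      rw [← mul_assoc, finsum_mem_eq_finite_toFinset_sum _ hB, finsum_mem_eq_finite_toFinset_sum _ hB,
        Finset.mul_sum, Finset.mul_sum]
      apply Finset.sum_congr rfl
      intro η hη
      rw [Set.Finite.mem_toFinset] at hη
      rw [← hFNG p M hS G D x θ χ hl.lo P hPp hPne η hη]
      ring
    rw [e1, FNC_dc _ hB (fun g η => cjS g P ≤ D ∧ SB M (cz (cjS g P)) θ (cjF g η)) {g : G | cjS g P ≤ D}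
      (fun η _ g h => h.1)]
    congr 1
    apply finsum_mem_congr rfl
    intro g hg
    have hg' : cjS g P ≤ D := hg
    have hbot : cjS g P ≠ ⊥ := fun h => hPne ((hFEQ G M g g P P P χ χ χ).2.1.2.2.2.2.1.1 h)
    have hcz : cz (cjS g P) = cjS g (cz P) := (hFEQ G M g g P P P χ χ χ).2.1.1
    have hnz : nz (cjS g P) = cjS g (nz P) := (hFEQ G M g g P P P χ χ χ).2.1.2.1
    rw [← hFSQ p M hS G D x θ χ hl (cjS g P) hg' hbot (cjS g N)
      (by rw [hcz]; exact Subgroup.map_mono hzN) (by rw [hnz]; exact Subgroup.map_mono hNP)]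
    apply finsum_mem_eq_of_bijOn (cjF g) (FNC_bij hFEQ hFSI p M hS G D x θ χ hl P g hg')
    intro η _
    have h8 := (hFEQ G M g g P P N χ η χ).2.2.2.2.2.2.2.1
    have h9 := (hFEQ G M g g (cz P) (stF N η) N χ η χ).2.2.2.2.2.2.2.2
    rw [hcz, h8, h9]
  · intro φ hφ a ha
    exact h12.2 a (fun ψ hψ => ⟨(hFCQ p M hS G D x θ χ hl P hPp hPne N hzN hNP ψ hψ).2.1,
      (hFCQ p M hS G D x θ χ hl P hPp hPne N hzN hNP ψ hψ).2.2 a ha⟩) φ hφ

end Pool.Agent.FI
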