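import Pool.Agent.helper22.FI.SpecA

/-!
# Row fi:NCJ (MP_baa4d7_al): conjugation inside the normaliser of a defect group
-/

set_option autoImplicit false

namespace Pool.Agent.FI

open Pool.Agent.helper58.DC Pool.Agent.DI Pool.Agent.GR Pool.Agent.OB

theorem NCJ_mem {G : Type} [Group G] (g y : G) (P : Subgroup G) :
    y ∈ P.map (MulAut.conj g).toMonoidHom ↔ g⁻¹ * y * g ∈ P := by
  constructor
  · rintro ⟨z, hz, rfl⟩
    have h : g⁻¹ * ((MulAut.conj g).toMonoidHom z) * g = z := by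
      change g⁻¹ * (g * z * g⁻¹) * g = z
      group
    rw [h]
    exact hz
  · intro h
    refine ⟨g⁻¹ * y * g, h, ?_⟩
    change g * (g⁻¹ * y * g) * g⁻¹ = y
    group

theorem NCJ (h1 : SYL_stmt) : NCJ_stmt := by
  intro p _ G _ _ L D x hD hDx hcard l hl hy
  obtain ⟨_, _, h3, _, h5, h6, _⟩ := h1 p G
  have hDL : D ≤ L := le_trans hDx inf_le_left
  have e1 := (h6 L x l hl).1
  have e2 := (h6 L x l hl).2
  have hDK : D ≤ Cz L (l * x * l⁻¹) := by
    intro d hd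
    refine Subgroup.mem_inf.2 ⟨hDL hd, ?_⟩
    rw [Subgroup.mem_centralizer_iff] at hy ⊢
    intro h hh
    rw [Set.mem_singleton_iff] at hh
    subst hh
    exact (hy d hd).symm
  have hRK : D.map (MulAut.conj l).toMonoidHom ≤ Cz L (l * x * l⁻¹) := by
    rw [e1]
    exact Subgroup.map_mono hDx
  have hRc : Nat.card (D.map (MulAut.conj l).toMonoidHom) = pp p (Cz L (l * x * l⁻¹)) := by
    rw [e2, (h5 D l).2, hcard]
  obtain ⟨k, hk, _, hk2⟩ := h3 D (Cz L (l * x * l⁻¹)) (D.map (MulAut.conj l).toMonoidHom) hD hDK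
    (by rw [e2, hcard]) (hD.map _) hRK
  have hk3 := hk2 hRc
  have hky : (l * x * l⁻¹) * k = k * (l * x * l⁻¹) := by
    have h := (Subgroup.mem_inf.1 hk).2
    rw [Subgroup.mem_centralizer_iff] at h
    exact h _ rfl
  have hmem : ∀ z : G, z ∈ D ↔ (k * l)⁻¹ * z * (k * l) ∈ D := by
    intro z
    have h : z ∈ (D.map (MulAut.conj l).toMonoidHom).map (MulAut.conj k).toMonoidHom ↔ z ∈ D := by rw [hk3]
    rw [← h, NCJ_mem, NCJ_mem]
    have h' : l⁻¹ * (k⁻¹ * z * k) * l = (k * l)⁻¹ * z * (k * l) := by group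
    rw [h']
  refine ⟨k * l, L.mul_mem (Subgroup.mem_inf.1 hk).1 hl, ?_, ?_⟩
  · rw [Subgroup.mem_normalizer_iff]
    intro h
    rw [hmem (k * l * h * (k * l)⁻¹)]
    have h' : (k * l)⁻¹ * (k * l * h * (k * l)⁻¹) * (k * l) = h := by group
    rw [h']
  · calc k * l * x * (k * l)⁻¹ = (k * (l * x * l⁻¹)) * k⁻¹ := by group
      _ = ((l * x * l⁻¹) * k) * k⁻¹ := by rw [hky]
      _ = l * x * l⁻¹ := by group

end Pool.Agent.FI
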