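import Pool.Agent.helper22.FI.SpecA

/-!
# Row fi:VN1 (MP_baa4d7_al): characters of a block with central defect group vanish outside of `D` times the `p`-regular elements
-/

set_option autoImplicit false

namespace Pool.Agent.FI

open Pool.Agent.helper58.DC Pool.Agent.DI Pool.Agent.GR Pool.Agent.OB

/-- a sum of squares of absolute values -/
theorem VN1_sq {G : Type} [Group G] (S : Set (G → ℂ)) (hS : S.Finite) (g : G)
    (hc : ∀ ψ ∈ S, ψ g⁻¹ = (starRingEnd ℂ) (ψ g)) (h0 : Sf S g g = 0) : ∀ ψ ∈ S, ψ g = 0 := by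
  unfold Sf at h0
  rw [finsum_mem_eq_finite_toFinset_sum _ hS] at h0
  have h1 : ∑ ψ ∈ hS.toFinset, ψ g * ψ g⁻¹ = ((∑ ψ ∈ hS.toFinset, Complex.normSq (ψ g) : ℝ) : ℂ) := by
    push_cast
    apply Finset.sum_congr rfl
    intro ψ hψ
    rw [hc ψ (hS.mem_toFinset.1 hψ), Complex.mul_conj]
  rw [h1] at h0
  have h2 : ∑ ψ ∈ hS.toFinset, Complex.normSq (ψ g) = 0 := by exact_mod_cast h0
  rw [Finset.sum_eq_zero_iff_of_nonneg fun ψ _ => Complex.normSq_nonneg _] at h2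
  intro ψ hψ
  exact Complex.normSq_eq_zero.1 (h2 ψ (hS.mem_toFinset.2 hψ))

theorem VN1 (h1 : BRY_stmt) (h2 : CNTL_stmt) (h3 : STC_stmt) (h4 : SYL_stmt) (h5 : B2_stmt) : VN1_stmt := by
  intro p M hS G _ _ L D w hLD ψ hψ hdef ψ' hψ' y hy hyp hyD v hv hvr
  have : Fact p.Prime := ⟨hS.pr⟩
  obtain ⟨_, _, _, _, _, _, h7, h8, _⟩ := h4 p G
  have hempty : Bq M L (Cz L y) ψ = ∅ := by
    rw [Set.eq_empty_iff_forall_notMem]
    rintro η ⟨hη, hη'⟩
    have e : Cz L y = L ⊓ cz (Subgroup.zpowers y) := by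
      rw [h7]
      rfl
    rw [e] at hη
    obtain ⟨l, hl, hr⟩ := h2 p M hS G L (Subgroup.zpowers y) (h8 y hyp) (by
      rw [Subgroup.zpowers_le]
      exact hy) η hη ψ hη' D w hdef
    have h9 := hr y (Subgroup.mem_zpowers y)
    have h10 := hLD hl
    rw [Subgroup.mem_centralizer_iff] at h10
    have h11 := h10 _ h9
    have h12 : y = l * y * l⁻¹ := by
      calc y = l⁻¹ * (l * y * l⁻¹ * l) := by group
        _ = l⁻¹ * (l * (l * y * l⁻¹)) := by rw [h11]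
        _ = l * y * l⁻¹ := by group
    rw [h12] at hyD
    exact hyD h9
  have h13 := h1 p M hS G L y hy hyp ψ v hv v hv hvr hvr
  have h14 : Sf (Bq M L (Cz L y) ψ) v v = 0 := by
    rw [hempty]
    unfold Sf
    exact finsum_mem_empty
  rw [h14] at h13
  exact VN1_sq _ ((h5 G L).1.subset fun φ h => h.1) _ (fun φ h => h3 G L φ h.1 _) h13 ψ' hψ'

end Pool.Agent.FI
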