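import Pool.Agent.helper36.HK.SpecN

set_option autoImplicit false

open Finset

namespace Pool.Agent.FI

private lemma MVA_nn (a p : ℕ) (h : a ^ 2 ≤ 8 * p ^ 2) : nn ((a : ℤ), (p : ℤ)) = 8 * p ^ 2 - a ^ 2 := by
  unfold nn N8
  simp only
  zify [h]
  rw [abs_sub_comm, abs_of_nonneg]
  have h' : ((a ^ 2 : ℕ) : ℤ) ≤ ((8 * p ^ 2 : ℕ) : ℤ) := by exact_mod_cast h
  push_cast at h'
  linarith

private lemma MVA_sum (x A : ℕ) (hA : A ≤ x) :
    ∑ ζ ∈ PZ x A with (nn ζ).Prime, th ζ.2 * Real.log (nn ζ) =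
      ∑ a ∈ (Icc 1 A).filter Odd, ∑ p ∈ (Ioc x (2 * x)).filter (fun p => p.Prime ∧ (8 * p ^ 2 - a ^ 2).Prime),
        Real.log p * Real.log ((8 * p ^ 2 - a ^ 2 : ℕ) : ℝ) := by
  have h1 : ∑ ζ ∈ PZ x A with (nn ζ).Prime, th ζ.2 * Real.log (nn ζ) =
      ∑ ζ ∈ (PZ x A).filter (fun ζ => (nn ζ).Prime ∧ ζ.2.toNat.Prime), th ζ.2 * Real.log (nn ζ) := by
    rw [← Finset.filter_filter]
    symm
    apply Finset.sum_filter_of_ne
    intro ζ _ hne
    by_contra hp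
    apply hne
    unfold th
    rw [if_neg hp, zero_mul]
  have h2 : ∑ a ∈ (Icc 1 A).filter Odd, ∑ p ∈ (Ioc x (2 * x)).filter (fun p => p.Prime ∧ (8 * p ^ 2 - a ^ 2).Prime),
        Real.log p * Real.log ((8 * p ^ 2 - a ^ 2 : ℕ) : ℝ) =
      ∑ q ∈ (((Icc 1 A).filter Odd) ×ˢ (Ioc x (2 * x))).filter (fun q : ℕ × ℕ => q.2.Prime ∧ (8 * q.2 ^ 2 - q.1 ^ 2).Prime),
        Real.log q.2 * Real.log ((8 * q.2 ^ 2 - q.1 ^ 2 : ℕ) : ℝ) := by
    symm
    rw [Finset.sum_filter, Finset.sum_product]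
    apply sum_congr rfl
    intro a _
    rw [Finset.sum_filter]
  rw [h1, h2]
  have key : ∀ a p : ℕ, 1 ≤ a → a ≤ A → x < p → p ≤ 2 * x → a ^ 2 ≤ 8 * p ^ 2 := by
    intro a p _ ha hp _
    have h3 : a ≤ p := by omega
    calc a ^ 2 ≤ p ^ 2 := Nat.pow_le_pow_left h3 2
      _ ≤ 8 * p ^ 2 := by omega
  refine Finset.sum_bij' (fun ζ _ => (ζ.1.toNat, ζ.2.toNat)) (fun q _ => ((q.1 : ℤ), (q.2 : ℤ))) ?_ ?_ ?_ ?_ ?_
  · rintro ⟨a, p⟩ hζ
    obtain ⟨hZ, hn, hp⟩ := mem_filter.1 hζ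
    unfold PZ at hZ
    obtain ⟨hbox, hodd, hcop⟩ := mem_filter.1 hZ
    obtain ⟨ha, hl⟩ := mem_product.1 hbox
    obtain ⟨ha1, ha2⟩ := mem_Icc.1 ha
    obtain ⟨hl1, hl2⟩ := mem_Ioc.1 hl
    simp only at ha1 ha2 hl1 hl2 hodd hp
    lift a to ℕ using by omega
    lift p to ℕ using by omega
    simp only [Int.toNat_natCast] at hp ⊢
    refine mem_filter.2 ⟨mem_product.2 ⟨mem_filter.2 ⟨mem_Icc.2 ⟨by omega, by omega⟩, ?_⟩,
      mem_Ioc.2 ⟨by omega, by omega⟩⟩, hp, ?_⟩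
    · rw [Nat.odd_iff]
      omega
    · rw [← MVA_nn a p (key a p (by omega) (by omega) (by omega) (by omega))]
      exact hn
  · rintro ⟨a, p⟩ hq
    obtain ⟨hbox, hp, hn⟩ := mem_filter.1 hq
    obtain ⟨ha, hl⟩ := mem_product.1 hbox
    obtain ⟨ha', hodd⟩ := mem_filter.1 ha
    obtain ⟨ha1, ha2⟩ := mem_Icc.1 ha'
    obtain ⟨hl1, hl2⟩ := mem_Ioc.1 hl
    simp only at ha1 ha2 hl1 hl2 hodd hp hn
    rw [Nat.odd_iff] at hodd
    refine mem_filter.2 ⟨?_, ?_, ?_⟩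
    · unfold PZ
      refine mem_filter.2 ⟨mem_product.2 ⟨mem_Icc.2 ⟨by simp only; omega, by simp only; omega⟩,
        mem_Ioc.2 ⟨by simp only; omega, by simp only; omega⟩⟩, by simp only; omega, ?_⟩
      simp only
      rw [Nat.isCoprime_iff_coprime]
      apply Nat.Coprime.symm
      rw [Nat.Prime.coprime_iff_not_dvd hp]
      intro hd
      have := Nat.le_of_dvd (by omega) hd
      omega
    · rw [MVA_nn a p (key a p (by omega) (by omega) (by omega) (by omega))]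
      exact hn
    · simp only [Int.toNat_natCast]
      exact hp
  · rintro ⟨a, p⟩ hζ
    obtain ⟨hZ, hn, hp⟩ := mem_filter.1 hζ
    unfold PZ at hZ
    obtain ⟨hbox, hodd, hcop⟩ := mem_filter.1 hZ
    obtain ⟨ha, hl⟩ := mem_product.1 hbox
    obtain ⟨ha1, ha2⟩ := mem_Icc.1 ha
    obtain ⟨hl1, hl2⟩ := mem_Ioc.1 hl
    simp only at ha1 ha2 hl1 hl2
    simp only [Prod.mk.injEq]
    exact ⟨Int.toNat_of_nonneg (by omega), Int.toNat_of_nonneg (by omega)⟩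
  · rintro ⟨a, p⟩ _
    simp
  · rintro ⟨a, p⟩ hζ
    obtain ⟨hZ, hn, hp⟩ := mem_filter.1 hζ
    unfold PZ at hZ
    obtain ⟨hbox, hodd, hcop⟩ := mem_filter.1 hZ
    obtain ⟨ha, hl⟩ := mem_product.1 hbox
    obtain ⟨ha1, ha2⟩ := mem_Icc.1 ha
    obtain ⟨hl1, hl2⟩ := mem_Ioc.1 hl
    simp only at ha1 ha2 hl1 hl2 hodd hp
    lift a to ℕ using by omega
    lift p to ℕ using by omega
    simp only [Int.toNat_natCast] at hp ⊢
    rw [MVA_nn a p (key a p (by omega) (by omega) (by omega) (by omega))]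
    unfold th
    rw [Int.toNat_natCast, if_pos hp]
    norm_cast

theorem MVA (hMVS : MVS_stmt) (hKPS : KPS_stmt) : MVA_stmt := by
  intro ε hε K
  obtain ⟨x₁, hx₁⟩ := hMVS ε hε K
  have hSg := hKPS.1
  have hlep : 0 < lep := by
    unfold lep
    apply Real.log_pos
    have := Real.sqrt_nonneg 8
    linarith
  set c₀ : ℝ := √8 / lep * Sg with hc₀
  have hc₀p : 0 ≤ c₀ := by positivity
  obtain ⟨x₂, hx₂⟩ : ∃ x₂ : ℕ, ∀ x : ℕ, x₂ ≤ x → max 5 (5 * c₀ / ε) ≤ Real.log x := by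
    have ht : Filter.Tendsto (fun x : ℕ => Real.log x) Filter.atTop Filter.atTop :=
      Real.tendsto_log_atTop.comp tendsto_natCast_atTop_atTop
    obtain ⟨x₂, h⟩ := Filter.eventually_atTop.1 (ht.eventually_ge_atTop (max 5 (5 * c₀ / ε)))
    exact ⟨x₂, h⟩
  refine ⟨max (max x₁ x₂) 2, fun x hx A hA1 hA2 => ?_⟩
  have hxx1 : x₁ ≤ x := (le_max_left _ _).trans ((le_max_left _ _).trans hx)
  have hxx2 : x₂ ≤ x := (le_max_right _ _).trans ((le_max_left _ _).trans hx)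
  have hx2 : 2 ≤ x := (le_max_right _ _).trans hx
  have hS := hx₁ x hxx1 A hA1 hA2
  have hL := hx₂ x hxx2
  set L : ℝ := Real.log x with hLdef
  have hL5 : 5 ≤ L := (le_max_left _ _).trans hL
  have hLc : 5 * c₀ / ε ≤ L := (le_max_right _ _).trans hL
  have hLp : 0 < L := by linarith
  rw [MVA_sum x A hA2] at hS
  set T : ℝ := ∑ a ∈ (Icc 1 A).filter Odd, (Pool.Agent.FIP.cta x a : ℝ) with hT
  have hT' : T = ∑ a ∈ (Icc 1 A).filter Odd,
      ∑ p ∈ (Ioc x (2 * x)).filter (fun p => p.Prime ∧ (8 * p ^ 2 - a ^ 2).Prime), (1 : ℝ) := by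
    rw [hT]
    apply sum_congr rfl
    intro a _
    unfold Pool.Agent.FIP.cta
    rw [sum_const, nsmul_eq_mul, mul_one]
  have hT0 : 0 ≤ T := sum_nonneg fun a _ => Nat.cast_nonneg _
  have hxp : (0 : ℝ) < x := by
    have : 0 < x := by omega
    exact_mod_cast this
  have hterm : ∀ a ∈ (Icc 1 A).filter Odd, ∀ p ∈ (Ioc x (2 * x)).filter (fun p => p.Prime ∧ (8 * p ^ 2 - a ^ 2).Prime),
      2 * L ^ 2 ≤ Real.log p * Real.log ((8 * p ^ 2 - a ^ 2 : ℕ) : ℝ) ∧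
      Real.log p * Real.log ((8 * p ^ 2 - a ^ 2 : ℕ) : ℝ) ≤ 2 * L ^ 2 * (1 + 5 / L) := by
    intro a ha p hp
    obtain ⟨ha', -⟩ := mem_filter.1 ha
    obtain ⟨ha1, ha2⟩ := mem_Icc.1 ha'
    obtain ⟨hp', -⟩ := mem_filter.1 hp
    obtain ⟨hp1, hp2⟩ := mem_Ioc.1 hp'
    have hpr1 : (x : ℝ) ≤ p := by exact_mod_cast hp1.le
    have hpr2 : (p : ℝ) ≤ 2 * x := by exact_mod_cast hp2
    have hpp : (0 : ℝ) < p := by linarith
    have har : (a : ℝ) ≤ x := by exact_mod_cast ha2.trans hA2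
    have har0 : (0 : ℝ) ≤ a := Nat.cast_nonneg _
    have hle : a ^ 2 ≤ 8 * p ^ 2 := by
      have h3 : a ≤ p := by omega
      calc a ^ 2 ≤ p ^ 2 := Nat.pow_le_pow_left h3 2
        _ ≤ 8 * p ^ 2 := by omega
    have hcast : ((8 * p ^ 2 - a ^ 2 : ℕ) : ℝ) = 8 * (p : ℝ) ^ 2 - (a : ℝ) ^ 2 := by
      rw [Nat.cast_sub hle]
      push_cast
      ring
    rw [hcast]
    have h4 : (x : ℝ) ^ 2 ≤ 8 * (p : ℝ) ^ 2 - (a : ℝ) ^ 2 := by nlinarith
    have h5 : 8 * (p : ℝ) ^ 2 - (a : ℝ) ^ 2 ≤ 32 * (x : ℝ) ^ 2 := by nlinarith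
    have h6 : L ≤ Real.log p := Real.log_le_log hxp hpr1
    have h7 : Real.log p ≤ L + 1 := by
      calc Real.log p ≤ Real.log (2 * x) := Real.log_le_log hpp hpr2
        _ = Real.log 2 + L := Real.log_mul (by norm_num) hxp.ne'
        _ ≤ L + 1 := by linarith [Real.log_two_lt_d9]
    have h8 : 2 * L ≤ Real.log (8 * (p : ℝ) ^ 2 - (a : ℝ) ^ 2) := by
      calc 2 * L = Real.log ((x : ℝ) ^ 2) := by rw [Real.log_pow]; push_cast; rfl
        _ ≤ _ := Real.log_le_log (by positivity) h4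
    have h9 : Real.log (8 * (p : ℝ) ^ 2 - (a : ℝ) ^ 2) ≤ 2 * L + 4 := by
      calc Real.log (8 * (p : ℝ) ^ 2 - (a : ℝ) ^ 2) ≤ Real.log (32 * (x : ℝ) ^ 2) :=
            Real.log_le_log (lt_of_lt_of_le (by positivity) h4) h5
        _ = Real.log 32 + Real.log ((x : ℝ) ^ 2) := Real.log_mul (by norm_num) (by positivity)
        _ = 5 * Real.log 2 + 2 * L := by
            rw [show (32 : ℝ) = 2 ^ 5 by norm_num, Real.log_pow, Real.log_pow]
            push_cast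
            rfl
        _ ≤ 2 * L + 4 := by linarith [Real.log_two_lt_d9]
    constructor
    · calc 2 * L ^ 2 = L * (2 * L) := by ring
        _ ≤ Real.log p * Real.log (8 * (p : ℝ) ^ 2 - (a : ℝ) ^ 2) :=
            mul_le_mul h6 h8 (by positivity) (hLp.le.trans h6)
    · calc Real.log p * Real.log (8 * (p : ℝ) ^ 2 - (a : ℝ) ^ 2) ≤ (L + 1) * (2 * L + 4) :=
            mul_le_mul h7 h9 (by linarith) (by linarith)
        _ ≤ 2 * L ^ 2 + 10 * L := by nlinarith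
        _ = 2 * L ^ 2 * (1 + 5 / L) := by field_simp; ring
  set S : ℝ := ∑ a ∈ (Icc 1 A).filter Odd, ∑ p ∈ (Ioc x (2 * x)).filter (fun p => p.Prime ∧ (8 * p ^ 2 - a ^ 2).Prime),
        Real.log p * Real.log ((8 * p ^ 2 - a ^ 2 : ℕ) : ℝ) with hSdef
  have hlow : 2 * L ^ 2 * T ≤ S := by
    rw [hT', mul_sum]
    apply sum_le_sum
    intro a ha
    rw [mul_sum]
    apply sum_le_sum
    intro p hp
    rw [mul_one]
    exact (hterm a ha p hp).1
  have hup : S ≤ 2 * L ^ 2 * (1 + 5 / L) * T := by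
    rw [hT', mul_sum]
    apply sum_le_sum
    intro a ha
    rw [mul_sum]
    apply sum_le_sum
    intro p hp
    rw [mul_one]
    exact (hterm a ha p hp).2
  obtain ⟨hS1, hS2⟩ := abs_le.1 hS
  have hAx : (0 : ℝ) ≤ (A : ℝ) * x := by positivity
  set Y : ℝ := (A : ℝ) * x with hY
  have hL2 : 0 < L ^ 2 := by positivity
  have hgoal : √8 / (2 * lep) * Sg * (Y / L ^ 2) = c₀ / 2 * Y / L ^ 2 := by
    rw [hc₀]
    field_simp
  rw [hgoal, abs_le]
  have h5c : 5 * c₀ ≤ ε * L := by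
    rw [div_le_iff₀ hε] at hLc
    linarith
  constructor
  · -- lower bound
    have h1 : (c₀ - ε) * Y ≤ 2 * L ^ 2 * (1 + 5 / L) * T := by linarith
    have h2 : T - c₀ / 2 * Y / L ^ 2 = (2 * L ^ 2 * T - c₀ * Y) / (2 * L ^ 2) := by
      field_simp
    rw [h2, show -(ε * (Y / L ^ 2)) = (-(2 * ε * Y)) / (2 * L ^ 2) by field_simp]
    apply div_le_div_of_nonneg_right _ (by positivity)
    -- (1 + 5/L) * (2 L^2 T) >= (c0 - eps) Y
    have h3 : (1 + 5 / L) * (c₀ * Y - 2 * ε * Y) ≤ (c₀ - ε) * Y := by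
      have e1 : (1 + 5 / L) * (c₀ * Y - 2 * ε * Y) = c₀ * Y - 2 * ε * Y + (5 * c₀) / L * Y - 10 * ε / L * Y := by
        field_simp
        ring
      have e2 : (5 * c₀) / L ≤ ε := by
        rw [div_le_iff₀ hLp]
        exact h5c
      have e3 : (5 * c₀) / L * Y ≤ ε * Y := mul_le_mul_of_nonneg_right e2 hAx
      have e4 : 0 ≤ 10 * ε / L * Y := by positivity
      rw [e1]
      linarith
    have h4 : 0 < 1 + 5 / L := by positivity
    have h5 : (1 + 5 / L) * (c₀ * Y - 2 * ε * Y) ≤ (1 + 5 / L) * (2 * L ^ 2 * T) := by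
      calc (1 + 5 / L) * (c₀ * Y - 2 * ε * Y) ≤ (c₀ - ε) * Y := h3
        _ ≤ 2 * L ^ 2 * (1 + 5 / L) * T := h1
        _ = (1 + 5 / L) * (2 * L ^ 2 * T) := by ring
    have h6 := le_of_mul_le_mul_left h5 h4
    linarith
  · have h1 : 2 * L ^ 2 * T ≤ (c₀ + ε) * Y := by linarith
    have h2 : T - c₀ / 2 * Y / L ^ 2 = (2 * L ^ 2 * T - c₀ * Y) / (2 * L ^ 2) := by
      field_simp
    rw [h2, show ε * (Y / L ^ 2) = (2 * ε * Y) / (2 * L ^ 2) by field_simp]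
    apply div_le_div_of_nonneg_right _ (by positivity)
    have : 0 ≤ ε * Y := by positivity
    linarith

end Pool.Agent.FI
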